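import Pool.Agent.H846.Det.Defs
import Pool.Graph.R_pool_sql_team_seeded_b0a926ef.R911.Iso.Defs

/-!
# Fourfolds of hyperkähler type and detection by divisors on specializations: definitions
-/

open CategoryTheory AlgebraicGeometry

universe u v

namespace Pool.Agent.H846.HK

section Alg

variable {K A : Type*}

/-- Fujiki's relation for the form `q` on the elements with the property `V` (the cohomology
classes of degree two of a fourfold): `q` is symmetric and
`tr (x₁ x₂ x₃ x₄) = c (q x₁ x₂ q x₃ x₄ + q x₁ x₃ q x₂ x₄ + q x₁ x₄ q x₂ x₃)`. -/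
structure Fujiki [Add K] [Mul K] [Mul A] (tr : A → K) (V : A → Prop) (q : A → A → K)
    (c : K) : Prop where
  symm : ∀ x y, V x → V y → q x y = q y x
  rel : ∀ x₁ x₂ x₃ x₄, V x₁ → V x₂ → V x₃ → V x₄ → tr (x₁ * x₂ * x₃ * x₄) =
    c * (q x₁ x₂ * q x₃ x₄ + q x₁ x₃ * q x₂ x₄ + q x₁ x₄ * q x₂ x₃)

/-- The element `c` is orthogonal to the products of two elements with the property `V`. -/
def OrthToProducts [Zero K] [Mul A] (tr : A → K) (V : A → Prop) (c : A) : Prop :=
  ∀ x y, V x → V y → tr (x * y * c) = 0

/-- The element `a` is a product of two elements with the property `V`, or is one of the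
elements `r j`. -/
def IsProductOr [Mul A] (V : A → Prop) {m : ℕ} (r : Fin m → A) (a : A) : Prop :=
  (∃ x y, V x ∧ V y ∧ a = x * y) ∨ ∃ j, a = r j

/-- The element `x` is a linear combination of elements with the property `p`. -/
def InSpan (K : Type*) [Field K] {A : Type*} [AddCommGroup A] [Module K A] (p : A → Prop)
    (x : A) : Prop :=
  ∀ U : Submodule K A, (∀ y, p y → y ∈ U) → x ∈ U

/-- The bilinear forms on the vector space `A`. -/
abbrev Form (K : Type*) [Field K] (A : Type*) [AddCommGroup A] [Module K A] :=
  A →ₗ[K] A →ₗ[K] K

/-- The value of a bilinear form. -/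
def formVal {K : Type*} [Field K] {A : Type*} [AddCommGroup A] [Module K A] (q : Form K A)
    (x y : A) : K := q x y

/-- The rational matrix `M` is positive definite. -/
def PosMatrix {m : ℕ} (M : Fin m → Fin m → ℚ) : Prop :=
  ∀ a : Fin m → ℚ, a ≠ 0 → 0 < ∑ i, ∑ j, a i * a j * M i j

end Alg

open Pool.Agent.H914 Pool.Agent.H914.VarClass Pool.Agent.H914.VarClass.Obj
  Pool.Agent.H281R3.HT Pool.Agent.R911.Iso Pool.Agent.W539.Ker Pool.Agent.H846.Det

variable {k : Type u} [Field k] {𝒱 : VarClass k} {ops : CycleOps 𝒱}
  {k₀ : Type u} [Field k₀] {𝒱₀ : VarClass k₀} {ops₀ : CycleOps 𝒱₀}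

/-- The standard conjecture of Hodge type in codimension `n` for the polarized variety `P`: the
number `(-1) ^ n deg (z · D ^ (dim X - 2 n) · z)` is positive for all primitive cycles `z` of
codimension `n` which are not numerically equivalent to zero. -/
def HodgeIn (W : WeilCohomology.{u, v} ops) (P : Polarized 𝒱) (n : ℕ) : Prop :=
  ∀ z, Primitive W P.X P.D n z → ¬ NumZero ops P.X n z → 0 < pairing ops P.X P.D n z z

/-- The intersection number of two cycles. -/
noncomputable def interNum (ops : CycleOps 𝒱) (X : 𝒱.Obj) (z w : X.Cycles) : ℚ :=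
  X.V.degCycle (ops.mul z w)

section One

variable (W : WeilCohomology.{u, v} ops) (X : 𝒱.Obj)

/-- The trace of a cohomology class. -/
noncomputable def trOf (x : W.H X) : W.K := W.tr X x

/-- The cohomology class `x` has degree `i`. -/
def InDeg (i : ℕ) (x : W.H X) : Prop := x ∈ W.gr X i

/-- The cycles `r 1, …, r m` of codimension two on `X` have classes orthogonal to the products of
classes of degree two, and their matrix of intersection numbers is positive definite. -/
structure Complement {m : ℕ} (r : Fin m → X.Cycles) : Prop where
  isCyc : ∀ i, X.IsCyc 2 (r i)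
  orth : ∀ i, OrthToProducts (trOf W X) (InDeg W X 2) (classOf W X (r i))
  pos : PosMatrix fun i j => interNum ops X (r i) (r j)

/-- The classes of algebraic cycles of codimension two on `X` are linear combinations (with
coefficients in the coefficient field) of products of classes of degree two and of the classes of
the cycles `r 1, …, r m`. -/
def GeneratedBy {m : ℕ} (r : Fin m → X.Cycles) : Prop :=
  ∀ z, X.IsCyc 2 z → InSpan W.K (IsProductOr (InDeg W X 2) fun j => classOf W X (r j))
    (classOf W X z)

/-- The variety `X` has dimension four, its cohomology of degree two satisfies Fujiki's relation,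
and its algebraic classes of codimension two are generated by the products of classes of degree
two together with algebraic classes which are orthogonal to these products and whose
intersection matrix is positive definite. This holds for the fourfolds deformation equivalent to
the Hilbert scheme of two points of a K3 surface (without additional classes) and for those
deformation equivalent to a generalized Kummer fourfold. -/
structure IsFujikiFourfold : Prop where
  dim_eq : X.dim = 4
  rel : ∃ (q : Form W.K (W.H X)) (c : W.K), Fujiki (trOf W X) (InDeg W X 2) (formVal q) c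
  gen : ∃ (m : ℕ) (r : Fin m → X.Cycles), Complement W X r ∧ GeneratedBy W X r

end One

/-- A specialisation of the polarized variety `P` over `k` to the polarized variety `P₀` over
another field `k₀`, together with the comparison isomorphism in cohomology, such that the
algebraic correspondences from `X` to `X` specialise. -/
structure Place (W : WeilCohomology.{u, v} ops) (W₀ : WeilCohomology.{u, v} ops₀)
    (P : Polarized 𝒱) (P₀ : Polarized 𝒱₀) where
  /-- the isomorphism of the coefficient fields -/
  σ : CoefIso W W₀
  /-- the comparison isomorphism -/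
  s : CohIso W W₀ P.X P₀.X
  comp : IsComparison W W₀ P P₀ σ s
  spec : CorrespondencesSpecialize s s

/-- The intersection number of the image of the divisor `w` under the correspondence `e` with the
cycle `y` is not zero. -/
def PairsNontrivially (W : WeilCohomology.{u, v} ops) (X : 𝒱.Obj) (e : (X.prod X).Cycles)
    (w y : X.Cycles) : Prop :=
  trOf W X (corrMap W e (classOf W X w) * classOf W X y) ≠ 0

/-- The correspondence `e` has a specialisation `e₀` such that the intersection number of the
image under `e₀` of a divisor `w` on `X₀` with a cycle `y` of dimension one on `X₀` is not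
zero. -/
def DetectedOn {W : WeilCohomology.{u, v} ops} {W₀ : WeilCohomology.{u, v} ops₀}
    {P : Polarized 𝒱} {P₀ : Polarized 𝒱₀} (S : Place W W₀ P P₀)
    (e : (P.X.prod P.X).Cycles) : Prop :=
  ∃ (e₀ : (P₀.X.prod P₀.X).Cycles) (w y : P₀.X.Cycles),
    (P₀.X.prod P₀.X).IsCyc P₀.X.dim e₀ ∧ SpecializesTo S.s S.s e e₀ ∧
    P₀.X.IsCyc 1 w ∧ P₀.X.IsCyc (P₀.X.dim - 1) y ∧ PairsNontrivially W₀ P₀.X e₀ w y

/-- The correspondence `e` on the variety `X` of `P` is detected by a divisor on a specialisation
`X₀` of `X` for which the Hodge index theorem (the standard conjecture of Hodge type in the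
codimensions zero and one) holds. -/
def DetectedByDivisor (W : WeilCohomology.{u, v} ops) (P : Polarized 𝒱)
    (e : (P.X.prod P.X).Cycles) : Prop :=
  ∃ (k₀ : Type u) (_ : Field k₀) (𝒱₀ : VarClass k₀) (ops₀ : CycleOps 𝒱₀)
    (W₀ : WeilCohomology.{u, v} ops₀) (P₀ : Polarized 𝒱₀) (S : Place W W₀ P P₀),
    HodgeIn W₀ P₀ 0 ∧ HodgeIn W₀ P₀ 1 ∧ DetectedOn S e

/-- The cycle `e` of codimension `dim X` on `X × X` induces a nonzero idempotent operator on
`H(X)` which vanishes on the cohomology of degree different from two. -/
def IsIdempotentInDegreeTwo (W : WeilCohomology.{u, v} ops) (X : 𝒱.Obj)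
    (e : (X.prod X).Cycles) : Prop :=
  (X.prod X).IsCyc X.dim e ∧ (∀ a, corrMap W e (corrMap W e a) = corrMap W e a) ∧
    (∀ j ≠ 2, ∀ a, InDeg W X j a → corrMap W e a = 0) ∧ ∃ a, corrMap W e a ≠ 0

end Pool.Agent.H846.HK
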