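import Pool.Agent.H846.HK.Main

/-!
# The standard conjecture of Hodge type in codimension two
-/

open CategoryTheory AlgebraicGeometry Finset

universe u v

namespace Pool.Agent.H846.HK

open Pool.Agent.H914 Pool.Agent.H914.VarClass Pool.Agent.H914.VarClass.Obj
  Pool.Agent.H914.WeilCohomology Pool.Agent.H281R3.HT Pool.Agent.W552 Pool.Agent.W539.Ker
  Pool.Agent.R911.Iso Pool.Agent.H447 Pool.Agent.H846.Det

variable {k : Type u} [Field k] {𝒱 : VarClass k} {ops : CycleOps 𝒱}
  {W : WeilCohomology.{u, v} ops}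

section

variable {P : Polarized 𝒱} {f : Module.End W.K (W.H P.X)} (G : Gd W P.X P.D f)
  (hd : P.X.dim = 4) (h1 : (1 : W.H P.X) ≠ 0)
  (hdet : ∀ e, IsIdempotentInDegreeTwo W P.X e → DetectedByDivisor W P e)

include G hd h1

lemma D_ne : W.cl P.X P.D ≠ 0 := by
  intro h0
  apply tr_D_ne G hd h1
  rw [h0]
  simp

omit G hd h1 in
lemma trace_proj : LinearMap.trace W.K (W.H P.X) (proj (W.isInternal P.X) 2) =
    (Module.finrank W.K (W.gr P.X 2) : W.K) := by
  have h2 := LinearMap.trace_restrict_eq_of_forall_mem (W.gr P.X 2) (proj (W.isInternal P.X) 2)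
    (fun x => proj_mem _ _ x)
  rw [← h2]
  have h3 : (proj (W.isInternal P.X) 2).restrict (fun x _ => proj_mem (W.isInternal P.X) 2 x) =
      (1 : Module.End W.K (W.gr P.X 2)) := by
    apply LinearMap.ext
    intro x
    apply Subtype.ext
    exact proj_same (W.isInternal P.X) x.2
  rw [h3, LinearMap.trace_one]

include hdet

/-- The degree of the divisor is positive. -/
lemma deg_pos : ∃ q : ℚ, 0 < q ∧
    W.tr P.X (W.cl P.X P.D * W.cl P.X P.D * W.cl P.X P.D * W.cl P.X P.D) = q := by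
  have hm : Hm W 0 (proj (W.isInternal P.X) 2) := by
    apply hm_zero (fun x => proj_mem _ _ x)
    intro j hj x hx
    exact proj_ne _ hx hj
  have hevR : proj (W.isInternal P.X) 2 ∈ AR W P.X := rop_of_aop (proj_aop' G 2) hm
  obtain ⟨ε, hε, hεe⟩ := exists_cR (W := W) ⟨proj (W.isInternal P.X) 2, hevR⟩
  have hεe' : W.corr (W.cl _ ε) = proj (W.isInternal P.X) 2 := congrArg Subtype.val hεe
  have h5 : ∀ x, corrMap W ε x = proj (W.isInternal P.X) 2 x :=
    fun x => congrArg (fun T => T x) hεe'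
  obtain ⟨k₀, _, 𝒱₀, ops₀, W₀, P₀, S, hH0, hH1, -⟩ :=
    hdet ε ⟨hε, by
      intro x
      rw [h5, h5]
      exact proj_same _ (proj_mem _ _ x), by
      intro j hj x hx
      rw [h5]
      exact proj_ne _ hx hj, W.cl P.X P.D, by
      rw [h5, proj_same _ (W.cl_mem G.fr.hD)]
      exact D_ne G hd h1⟩
  obtain ⟨f₀, G₀, hf₀⟩ := exists_gd_spec S.comp G S.spec
  obtain ⟨q, hq0, hq⟩ := bf_nonneg_le G₀.fr (l := 0) (c := 1) (by
    intro n hn _ z hz hz'
    interval_cases n
    exact hH0 z hz hz') alg_one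
  have h2 := bf_spec S.comp G G₀ 1 1
  have h2' : S.s 1 = 1 := map_one S.s
  rw [h2', hq, ← map_ratCast S.σ q] at h2
  have h3 : bf W P.X P.D f 1 1 = q := (S.σ.injective h2).symm
  have h4 := bf_L_pow G.fr (n := 0) (by omega) (x := 1) (W.one_mem P.X) (by
    have := pow_L_mem (mulLeft_isHom (W := W) G.fr.hD) (W.one_mem P.X) (P.X.dim - 2 * 0 + 1)
    rw [W.gr_eq_bot P.X _ (by omega)] at this
    exact (Submodule.mem_bot _).1 this) (j := 0) (by omega) 1
  rw [pow_zero, Module.End.one_apply, h3, hd, show 4 - 2 * 0 - 0 = 3 + 1 by rfl, pow_succ',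
    pow_succ', pow_succ', pow_succ', pow_zero] at h4
  simp only [Module.End.mul_apply, LinearMap.mulLeft_apply, mul_one, one_mul, pow_zero] at h4
  have h6 : W.tr P.X (W.cl P.X P.D * W.cl P.X P.D * W.cl P.X P.D * W.cl P.X P.D) =
      ((24 * q : ℚ) : W.K) := by
    rw [mul_assoc, mul_assoc, Rat.cast_mul, h4]
    simp [Nat.factorial]
  have h7 := tr_D_ne G hd h1
  refine ⟨24 * q, ?_, h6⟩
  rcases hq0.lt_or_eq with h8 | h8
  · positivity
  · exfalso
    apply h7
    rw [h6, ← h8]
    simp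

/-- **The squares of the primitive algebraic classes in the symmetric square are nonnegative.** -/
theorem sym_nonneg {q : W.gr P.X 2 →ₗ[W.K] W.gr P.X 2 →ₗ[W.K] W.K} {c : W.K}
    (hF : FujikiRelation (W.tr P.X) (W.gr P.X 2) q c) {n : ℕ} (x y : Fin n → W.gr P.X 2)
    {z : P.X.Cycles} (hz : P.X.IsCyc 2 z) (hzx : W.cl P.X z = ∑ i, (x i : W.H P.X) * y i)
    (hL : W.cl P.X P.D * (∑ i, (x i : W.H P.X) * y i) = 0) :
    ∃ r : ℚ, 0 ≤ r ∧ W.tr P.X (W.cl P.X z * W.cl P.X z) = r := by
  have h2 := tr_sq hF G hd x y hL h1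
  rw [← hzx] at h2
  set S := sop W P.X P.D f (W.cl P.X z) with hS
  have hz4 : W.cl P.X z ∈ W.gr P.X 4 := W.cl_mem hz
  have hSa : AOp W P.X P.X S := sop_aop G hz
  obtain ⟨τ, hτ⟩ := G.trace_rat hSa
  obtain ⟨d, hd0, hdd⟩ := deg_pos G hd h1 hdet
  set b := Module.finrank W.K (W.gr P.X 2) with hb
  have hb0 : 0 < b := by
    apply Module.finrank_pos_iff_exists_ne_zero.2
    refine ⟨dv W G.fr.hD, ?_⟩
    intro h0
    exact D_ne G hd h1 (congrArg Subtype.val h0)
  set π := proj (W.isInternal P.X) 2 with hπ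
  have hπS : π * S = S := by
    apply LinearMap.ext
    intro v
    exact proj_same _ (sop_mem G hd hz4 v)
  have hSπ : S * π = S := by
    apply gr_ext (W.isInternal P.X)
    intro j v hv
    rw [Module.End.mul_apply]
    by_cases hj : j = 2
    · subst hj
      rw [hπ, proj_same _ hv]
    · rw [hπ, proj_ne _ hv hj, map_zero, hS, sop_ne hv hj]
  have hππ : π * π = π := proj_mul_proj _ _
  obtain ⟨r, hr0, hr⟩ := trace_sq_nonneg G h1 (by omega) hdet
    (B := S + ((-(τ / b) : ℚ) : W.K) • π)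
    (hSa.add ((proj_aop' G 2).smul _))
    (by
      intro v w
      have e1 : bf W P.X P.D f (π v) w = bf W P.X P.D f v (π w) := by
        refine gr_induction (W.isInternal P.X) (p := fun v => bf W P.X P.D f (π v) w =
          bf W P.X P.D f v (π w)) ?_ ?_ v
        swap
        · intro v v' hv hv'
          rw [map_add, map_add, LinearMap.add_apply, hv, hv', map_add, LinearMap.add_apply]
        intro i v hv
        refine gr_induction (W.isInternal P.X) (p := fun w => bf W P.X P.D f (π v) w =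
          bf W P.X P.D f v (π w)) ?_ ?_ w
        swap
        · intro w w' hw hw'
          rw [map_add, hw, hw', map_add, map_add]
        intro j w hw
        by_cases hi : i = 2
        · subst hi
          rw [hπ, proj_same _ hv]
          by_cases hj : j = 2
          · subst hj
            rw [proj_same _ hw]
          · rw [proj_ne _ hw hj, map_zero]
            exact G.fr.bf_deg hv hw (Ne.symm hj)
        · rw [hπ, proj_ne _ hv hi, map_zero, LinearMap.zero_apply]
          exact (G.fr.bf_deg hv (proj_mem _ _ _) hi).symm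
      rw [LinearMap.add_apply, LinearMap.smul_apply, LinearMap.add_apply, LinearMap.smul_apply,
        map_add, LinearMap.add_apply, map_add, sop_adj G hd hz4, map_smul, LinearMap.smul_apply,
        map_smul, e1])
    (by
      intro v
      exact add_mem (sop_mem G hd hz4 v) (Submodule.smul_mem _ _ (proj_mem _ _ v)))
    (by
      intro j hj v hv
      rw [LinearMap.add_apply, LinearMap.smul_apply, hS, sop_ne hv hj, hπ, proj_ne _ hv hj,
        smul_zero, add_zero])
  have hexp : (S + ((-(τ / b) : ℚ) : W.K) • π) * (S + ((-(τ / b) : ℚ) : W.K) • π) =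
      S * S + (2 * ((-(τ / b) : ℚ) : W.K)) • S +
        (((-(τ / b) : ℚ) : W.K) * ((-(τ / b) : ℚ) : W.K)) • π := by
    rw [add_mul, mul_add, mul_add, mul_smul_comm, smul_mul_assoc, smul_mul_smul_comm, hSπ, hπS,
      hππ, two_mul, add_smul]
    abel
  rw [hexp, map_add, map_add, map_smul, map_smul, hτ, trace_proj, smul_eq_mul,
    smul_eq_mul] at hr
  have hb1 : (b : ℚ) ≠ 0 := by exact_mod_cast hb0.ne'
  have h3 : LinearMap.trace W.K (W.H P.X) (S * S) = ((r + τ ^ 2 / b : ℚ) : W.K) := by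
    have h4 : (((-(τ / b) : ℚ) : W.K) * ((-(τ / b) : ℚ) : W.K)) * (b : W.K) +
        2 * ((-(τ / b) : ℚ) : W.K) * (τ : W.K) = ((-(τ ^ 2 / b) : ℚ) : W.K) := by
      have h5 : (-(τ / b)) * (-(τ / b)) * b + 2 * (-(τ / b)) * τ = -(τ ^ 2 / b) := by
        field_simp
        ring
      rw [← h5]
      push_cast
      ring
    have h6 : LinearMap.trace W.K (W.H P.X) (S * S) = (r : W.K) - ((-(τ ^ 2 / b) : ℚ) : W.K) := by
      rw [← hr, ← h4]
      ring
    rw [h6]
    push_cast
    ring
  rw [h3, hdd, hτ] at h2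
  refine ⟨d * ((r + τ ^ 2 / b) - τ ^ 2 / (b + 2)) / 6, ?_, ?_⟩
  · have h4 : τ ^ 2 / ((b : ℚ) + 2) ≤ τ ^ 2 / b := by
      apply div_le_div_of_nonneg_left (sq_nonneg τ) (by positivity) (by linarith)
    have h5 : 0 ≤ (r + τ ^ 2 / b) - τ ^ 2 / (b + 2) := by linarith
    positivity
  · have h4 : W.tr P.X (W.cl P.X z * W.cl P.X z) =
        (6 : W.K)⁻¹ * (6 * W.tr P.X (W.cl P.X z * W.cl P.X z)) := by
      rw [← mul_assoc, inv_mul_cancel₀ (by norm_num), one_mul]
    rw [h4, h2]
    push_cast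
    ring

end

end Pool.Agent.H846.HK
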