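import Pool.Agent.H846.HK.Op

/-!
# The intersection form on the symmetric square of the cohomology of degree two
-/

open CategoryTheory AlgebraicGeometry Finset

universe u v

namespace Pool.Agent.H846.HK

open Pool.Agent.H914 Pool.Agent.H914.VarClass Pool.Agent.H914.VarClass.Obj
  Pool.Agent.H914.WeilCohomology Pool.Agent.H281R3.HT Pool.Agent.W552 Pool.Agent.W539.Ker
  Pool.Agent.R911.Iso Pool.Agent.H447 Pool.Agent.H846.Det

variable {k : Type u} [Field k] {𝒱 : VarClass k} {ops : CycleOps 𝒱}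
  {W : WeilCohomology.{u, v} ops} {X : 𝒱.Obj} {D : X.Cycles} {f : Module.End W.K (W.H X)}

/-- The divisor class in the cohomology of degree two. -/
noncomputable def dv (W : WeilCohomology.{u, v} ops) {X : 𝒱.Obj} {D : X.Cycles}
    (hD : X.IsCyc 1 D) : W.gr X 2 := ⟨W.cl X D, W.cl_mem hD⟩

/-- The degree of the divisor. -/
lemma tr_D_ne (G : Gd W X D f) (hd : X.dim = 4) (h1' : (1 : W.H X) ≠ 0) :
    W.tr X (W.cl X D * W.cl X D * W.cl X D * W.cl X D) ≠ 0 := by
  intro h0
  set L := LinearMap.mulLeft W.K (W.cl X D) with hL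
  have h1 : (L ^ (X.dim - 0)) (1 : W.H X) =
      W.cl X D * W.cl X D * W.cl X D * W.cl X D := by
    rw [hd, show 4 - 0 = 4 from rfl, show (4 : ℕ) = 1 + 1 + 1 + 1 from rfl, pow_succ', pow_succ',
      pow_succ', pow_one, Module.End.mul_apply, Module.End.mul_apply, Module.End.mul_apply, hL,
      LinearMap.mulLeft_apply, LinearMap.mulLeft_apply, LinearMap.mulLeft_apply,
      LinearMap.mulLeft_apply, mul_one, mul_assoc, mul_assoc]
  have h2 : (L ^ (X.dim - 0)) (1 : W.H X) = 0 := by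
    rw [h1]
    have hm : W.cl X D * W.cl X D * W.cl X D * W.cl X D ∈ W.gr X (2 + 2 + 2 + 2) :=
      W.mul_mem (W.mul_mem (W.mul_mem (W.cl_mem G.fr.hD) (W.cl_mem G.fr.hD))
        (W.cl_mem G.fr.hD)) (W.cl_mem G.fr.hD)
    apply eq_zero_of_tr (j := 0) hm (by omega)
    intro b hb
    rw [W.gr_zero, Submodule.mem_span_singleton] at hb
    obtain ⟨r, rfl⟩ := hb
    rw [smul_mul_assoc, one_mul, map_smul, h0, smul_zero]
  have h3 := (hardLefschetz_of_fr G.fr 0 (by omega)).1 1 (W.one_mem X) h2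
  exact h1' h3

section Fujiki

variable {q : W.gr X 2 →ₗ[W.K] W.gr X 2 →ₗ[W.K] W.K} {c : W.K}
  (hF : FujikiRelation (W.tr X) (W.gr X 2) q c) (G : Gd W X D f) (hd : X.dim = 4)

include hF G hd

omit hd in
lemma tr_D_eq : W.tr X (W.cl X D * W.cl X D * W.cl X D * W.cl X D) =
      3 * c * (q (dv W G.fr.hD) (dv W G.fr.hD)) ^ 2 := by
  have h1 := hF.rel (dv W G.fr.hD) (dv W G.fr.hD) (dv W G.fr.hD) (dv W G.fr.hD)
  refine h1.trans ?_
  ring

lemma c_ne (h1' : (1 : W.H X) ≠ 0) : c ≠ 0 ∧ q (dv W G.fr.hD) (dv W G.fr.hD) ≠ 0 := by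
  have h3 := tr_D_ne G hd h1'
  rw [tr_D_eq hF G] at h3
  constructor
  · rintro rfl
    apply h3
    simp
  · intro h0
    apply h3
    rw [h0]
    simp

/-- The form is nondegenerate. -/
lemma q_nondeg {v : W.gr X 2} (h : ∀ y, q y v = 0) : v = 0 := by
  apply Subtype.ext
  apply (hardLefschetz_of_fr G.fr 2 (by omega)).1 v v.2
  have hv : W.cl X D * (W.cl X D * (v : W.H X)) ∈ W.gr X (2 + (2 + 2)) :=
    W.mul_mem (W.cl_mem G.fr.hD) (W.mul_mem (W.cl_mem G.fr.hD) v.2)
  rw [show X.dim - 2 = 2 by omega, pow_two, Module.End.mul_apply, LinearMap.mulLeft_apply,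
    LinearMap.mulLeft_apply]
  apply eq_zero_of_tr (j := 2) hv (by omega)
  intro b hb
  have h1 := hF.rel ⟨b, hb⟩ (dv W G.fr.hD) (dv W G.fr.hD) v
  rw [h, h] at h1
  have h2 : W.tr X (b * W.cl X D * W.cl X D * v) = 0 := by
    refine h1.trans ?_
    ring
  rw [← h2, mul_assoc, mul_assoc]

variable {n : ℕ} (x y : Fin n → W.gr X 2)

omit hF G hd in
lemma sum_mem : (∑ i, (x i : W.H X) * y i) ∈ W.gr X 4 := by
  apply Submodule.sum_mem
  intro i _
  have := W.mul_mem (x i).2 (y i).2
  exact this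

omit hF in
/-- The operator of the class on the cohomology of degree two. -/
noncomputable def topr : W.gr X 2 →ₗ[W.K] W.gr X 2 :=
  (sop W X D f (∑ i, (x i : W.H X) * y i)).restrict
    (fun v _ => sop_mem G hd (sum_mem x y) v)

omit hF in
lemma topr_coe (v : W.gr X 2) : ((topr G hd x y v : W.gr X 2) : W.H X) =
    sop W X D f (∑ i, (x i : W.H X) * y i) v := rfl

variable (hL : W.cl X D * (∑ i, (x i : W.H X) * y i) = 0)

include hL

lemma q_D_topr (h1' : (1 : W.H X) ≠ 0) (v : W.gr X 2) :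
    q (dv W G.fr.hD) (topr G hd x y v) = 0 := by
  obtain ⟨hc, hdd⟩ := c_ne hF G hd h1'
  have h1 := hF.rel (dv W G.fr.hD) (dv W G.fr.hD) (dv W G.fr.hD) (topr G hd x y v)
  have h2 := sop_spec G hd (sum_mem x y) hL v.2
  have h3 : W.tr X (W.cl X D * W.cl X D * W.cl X D * (topr G hd x y v : W.gr X 2)) = 0 := by
    rw [topr_coe, mul_assoc, mul_assoc, h2, ← mul_assoc, hL, zero_mul, map_zero]
  have h4 : 3 * c * q (dv W G.fr.hD) (dv W G.fr.hD) * q (dv W G.fr.hD) (topr G hd x y v) = 0 := by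
    rw [← h3]
    refine Eq.trans ?_ h1.symm
    ring
  rcases mul_eq_zero.1 h4 with h5 | h5
  · exfalso
    rcases mul_eq_zero.1 h5 with h6 | h6
    · rcases mul_eq_zero.1 h6 with h7 | h7
      · exact three_ne_zero h7
      · exact hc h7
    · exact hdd h6
  · exact h5

/-- The operator is the operator of the symmetric tensor, up to a scalar operator. -/
lemma topr_eq (h1' : (1 : W.H X) ≠ 0) :
    q (dv W G.fr.hD) (dv W G.fr.hD) • topr G hd x y =
      (∑ i, q (x i) (y i)) • (1 : Module.End W.K (W.gr X 2)) + symOp q x y := by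
  obtain ⟨hc, hdd⟩ := c_ne hF G hd h1'
  apply LinearMap.ext
  intro v
  rw [← sub_eq_zero]
  apply q_nondeg hF G hd
  intro w
  have h1 := hF.rel w (dv W G.fr.hD) (dv W G.fr.hD) (topr G hd x y v)
  rw [q_D_topr hF G hd x y hL h1'] at h1
  have h2 := sop_spec G hd (sum_mem x y) hL v.2
  have h3 : W.tr X (w * W.cl X D * W.cl X D * (topr G hd x y v : W.gr X 2)) =
      ∑ i, W.tr X (w * x i * y i * v) := by
    rw [topr_coe, mul_assoc, mul_assoc, h2, Finset.sum_mul, Finset.mul_sum, map_sum]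
    apply Finset.sum_congr rfl
    intro i _
    rw [mul_assoc, mul_assoc, mul_assoc]
  have h4 : ∑ i, W.tr X (w * x i * y i * v) = ∑ i, c * (q w (x i) * q (y i) v +
      q w (y i) * q (x i) v + q w v * q (x i) (y i)) :=
    Finset.sum_congr rfl (fun i _ => hF.rel w (x i) (y i) v)
  have h5 : c * (q w (topr G hd x y v) * q (dv W G.fr.hD) (dv W G.fr.hD)) =
      c * ∑ i, (q w (x i) * q (y i) v + q w (y i) * q (x i) v + q w v * q (x i) (y i)) := by
    rw [Finset.mul_sum, ← h4, ← h3]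
    refine Eq.trans ?_ h1.symm
    ring
  have h6 := mul_left_cancel₀ hc h5
  rw [map_sub, LinearMap.smul_apply, map_smul, smul_eq_mul, mul_comm, h6, LinearMap.add_apply,
    map_add, LinearMap.smul_apply, Module.End.one_apply, map_smul, symOp_apply, map_sum,
    smul_eq_mul, Finset.sum_mul, ← Finset.sum_add_distrib, ← Finset.sum_sub_distrib]
  apply Finset.sum_eq_zero
  intro i _
  rw [map_add, map_smul, map_smul, smul_eq_mul, smul_eq_mul]
  ring

/-- **The square of a primitive class in the symmetric square of the cohomology of degree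
two.** -/
theorem tr_sq (h1' : (1 : W.H X) ≠ 0) :
    6 * W.tr X ((∑ i, (x i : W.H X) * y i) * (∑ i, (x i : W.H X) * y i)) =
      W.tr X (W.cl X D * W.cl X D * W.cl X D * W.cl X D) *
        (LinearMap.trace W.K (W.H X) (sop W X D f (∑ i, (x i : W.H X) * y i) *
          sop W X D f (∑ i, (x i : W.H X) * y i)) -
        (LinearMap.trace W.K (W.H X) (sop W X D f (∑ i, (x i : W.H X) * y i))) ^ 2 /
          (Module.finrank W.K (W.gr X 2) + 2)) := by
  have h1 := trace_formula q hF.symm x y (topr G hd x y) _ (topr_eq hF G hd x y hL h1')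
  set S := sop W X D f (∑ i, (x i : W.H X) * y i) with hS
  have h2 : LinearMap.trace W.K (W.gr X 2) (topr G hd x y) = LinearMap.trace W.K (W.H X) S :=
    LinearMap.trace_restrict_eq_of_forall_mem (W.gr X 2) S
      (fun v => sop_mem G hd (sum_mem x y) v)
  have h3 : LinearMap.trace W.K (W.gr X 2) (topr G hd x y * topr G hd x y) =
      LinearMap.trace W.K (W.H X) (S * S) := by
    have h4 := LinearMap.trace_restrict_eq_of_forall_mem (W.gr X 2) (S * S)
      (fun v => sop_mem G hd (sum_mem x y) (S v))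
    rw [← h4]
    rfl
  rw [h2, h3] at h1
  have h5 : W.tr X ((∑ i, (x i : W.H X) * y i) * (∑ i, (x i : W.H X) * y i)) =
      c * (∑ i, ∑ j, (q (x i) (y i) * q (x j) (y j) + q (x i) (x j) * q (y i) (y j) +
        q (x i) (y j) * q (y i) (x j))) := by
    rw [Finset.sum_mul, map_sum, Finset.mul_sum]
    apply Finset.sum_congr rfl
    intro i _
    rw [Finset.mul_sum, map_sum, Finset.mul_sum]
    apply Finset.sum_congr rfl
    intro j _
    rw [← hF.rel, ← mul_assoc]
  rw [h5, tr_D_eq hF G]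
  linear_combination 3 * c * h1

end Fujiki

end Pool.Agent.H846.HK
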