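import Mathlib

/-!
# A trace formula for quadratic spaces
-/

open Finset

namespace Pool.Agent.H846.HK

variable {K : Type*} [Field K] [CharZero K] {V : Type*} [AddCommGroup V] [Module K V]
  [Module.Finite K V]

/-- The operator `v ↦ ∑ i, (q (x i) v • y i + q (y i) v • x i)`, twice the operator of the
symmetric tensor `∑ i, x i y i`. -/
noncomputable def symOp (q : V →ₗ[K] V →ₗ[K] K) {n : ℕ} (x y : Fin n → V) : V →ₗ[K] V :=
  ∑ i, ((q (x i)).smulRight (y i) + (q (y i)).smulRight (x i))

omit [CharZero K] [Module.Finite K V] in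
lemma symOp_apply (q : V →ₗ[K] V →ₗ[K] K) {n : ℕ} (x y : Fin n → V) (v : V) :
    symOp q x y v = ∑ i, (q (x i) v • y i + q (y i) v • x i) := by
  rw [symOp, LinearMap.sum_apply]
  rfl

omit [CharZero K] in
lemma trace_comp_smulRight (q : V →ₗ[K] V →ₗ[K] K) (a b c d : V) :
    LinearMap.trace K V ((q a).smulRight b * (q c).smulRight d) = q a d * q c b := by
  have h1 : (q a).smulRight b * (q c).smulRight d = (q c).smulRight (q a d • b) := by
    apply LinearMap.ext
    intro v
    rw [Module.End.mul_apply, LinearMap.smulRight_apply, LinearMap.smulRight_apply,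
      LinearMap.smulRight_apply, map_smul, smul_smul, smul_eq_mul]
  rw [h1, LinearMap.trace_smulRight, map_smul, smul_eq_mul]

omit [CharZero K] in
lemma trace_symOp (q : V →ₗ[K] V →ₗ[K] K) (hs : ∀ x y, q x y = q y x) {n : ℕ}
    (x y : Fin n → V) : LinearMap.trace K V (symOp q x y) = 2 * ∑ i, q (x i) (y i) := by
  rw [symOp, map_sum, Finset.mul_sum]
  apply Finset.sum_congr rfl
  intro i _
  rw [map_add, LinearMap.trace_smulRight, LinearMap.trace_smulRight, hs (y i) (x i)]
  ring

omit [CharZero K] in
lemma trace_symOp_sq (q : V →ₗ[K] V →ₗ[K] K) (hs : ∀ x y, q x y = q y x) {n : ℕ}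
    (x y : Fin n → V) : LinearMap.trace K V (symOp q x y * symOp q x y) =
      2 * ∑ i, ∑ j, (q (x i) (x j) * q (y i) (y j) + q (x i) (y j) * q (y i) (x j)) := by
  rw [symOp, Finset.sum_mul, map_sum, Finset.mul_sum]
  apply Finset.sum_congr rfl
  intro i _
  rw [Finset.mul_sum, map_sum, Finset.mul_sum]
  apply Finset.sum_congr rfl
  intro j _
  rw [add_mul, mul_add, mul_add, map_add, map_add, map_add, trace_comp_smulRight,
    trace_comp_smulRight, trace_comp_smulRight, trace_comp_smulRight, hs (x j) (y i),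
    hs (y j) (y i), hs (x j) (x i), hs (y j) (x i)]
  ring

/-- **The trace formula.** If `d T = t + 2 A`, where `A` is the operator of the symmetric tensor
`∑ x i y i` and `t = ∑ q (x i) (y i)` its trace, then
`t² + 2 tr A² = d² / 2 (tr T² - (tr T)² / (b + 2))`. -/
theorem trace_formula (q : V →ₗ[K] V →ₗ[K] K) (hs : ∀ x y, q x y = q y x) {n : ℕ}
    (x y : Fin n → V) (T : V →ₗ[K] V) (d : K)
    (hT : d • T = (∑ i, q (x i) (y i)) • (1 : Module.End K V) + symOp q x y) :
    2 * (∑ i, ∑ j, (q (x i) (y i) * q (x j) (y j) + q (x i) (x j) * q (y i) (y j) +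
      q (x i) (y j) * q (y i) (x j))) =
      d ^ 2 * (LinearMap.trace K V (T * T) -
        (LinearMap.trace K V T) ^ 2 / (Module.finrank K V + 2)) := by
  set t := ∑ i, q (x i) (y i) with ht
  have h1 : d * LinearMap.trace K V T = t * Module.finrank K V + 2 * t := by
    have h2 := congrArg (LinearMap.trace K V) hT
    rw [map_smul, map_add, map_smul, trace_symOp q hs, smul_eq_mul, smul_eq_mul,
      LinearMap.trace_one] at h2
    exact h2
  have h2 : d ^ 2 * LinearMap.trace K V (T * T) = t ^ 2 * Module.finrank K V + 4 * t ^ 2 +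
      LinearMap.trace K V (symOp q x y * symOp q x y) := by
    have h3 : (d • T) * (d • T) = (t ^ 2) • (1 : Module.End K V) + (2 * t) • symOp q x y +
        symOp q x y * symOp q x y := by
      rw [hT, add_mul, mul_add, mul_add, smul_mul_smul_comm, one_mul, smul_mul_assoc, one_mul,
        mul_smul_comm, mul_one, two_mul, add_smul, pow_two]
      abel
    have h4 := congrArg (LinearMap.trace K V) h3
    rw [smul_mul_smul_comm, map_smul, map_add, map_add, map_smul, map_smul, trace_symOp q hs,
      LinearMap.trace_one, smul_eq_mul, smul_eq_mul, smul_eq_mul] at h4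
    rw [pow_two, h4]
    ring
  have h3 : ∑ i, ∑ j, (q (x i) (y i) * q (x j) (y j) + q (x i) (x j) * q (y i) (y j) +
      q (x i) (y j) * q (y i) (x j)) = t ^ 2 + ∑ i, ∑ j, (q (x i) (x j) * q (y i) (y j) +
        q (x i) (y j) * q (y i) (x j)) := by
    rw [pow_two, ht, Finset.sum_mul_sum, ← Finset.sum_add_distrib]
    apply Finset.sum_congr rfl
    intro i _
    rw [← Finset.sum_add_distrib]
    apply Finset.sum_congr rfl
    intro j _
    ring
  have h4 := trace_symOp_sq q hs x y
  have hb : (Module.finrank K V : K) + 2 ≠ 0 := by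
    have : ((Module.finrank K V + 2 : ℕ) : K) ≠ 0 := Nat.cast_ne_zero.2 (by omega)
    push_cast at this
    exact this
  have h5 : d ^ 2 * (LinearMap.trace K V T) ^ 2 = (t * (Module.finrank K V + 2)) ^ 2 := by
    rw [← mul_pow, h1]
    ring
  have h6 : d ^ 2 * ((LinearMap.trace K V T) ^ 2 / (Module.finrank K V + 2)) =
      t ^ 2 * (Module.finrank K V + 2) := by
    rw [mul_div_assoc', h5, div_eq_iff hb]
    ring
  rw [mul_sub, h6, h2, h3, h4]
  ring

end Pool.Agent.H846.HK
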