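import Pool.Agent.H846.HK.Strict

/-!
# The standard conjecture of Hodge type for fourfolds of hyperkähler type
-/

open CategoryTheory AlgebraicGeometry

universe u v

namespace Pool.Agent.Results.MP_ffcd14_ag.HyperkahlerFourfolds

open Pool.Agent.H914 Pool.Agent.H914.VarClass Pool.Agent.H914.VarClass.Obj
  Pool.Agent.H281R3.HT Pool.Agent.R911.Iso Pool.Agent.H846.Det Pool.Agent.H846.HK

/-- **Fourfolds of hyperkähler type.** Let `X` be a polarized fourfold over a field `k` (of any
characteristic) which satisfies the hard Lefschetz theorem and the Lefschetz standard conjecture
for a Weil cohomology theory `W`, whose cohomology of degree two satisfies Fujiki's relation, and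
whose algebraic classes of codimension two are generated by products of classes of degree two and
a complement of algebraic classes with positive definite intersection matrix. Suppose that every
nonzero idempotent correspondence on `H²(X)` is detected by a divisor on some specialisation of
`X` (over some field) which satisfies the Hodge index theorem. Then the standard conjecture of
Hodge type holds for `X` in codimension two, and in all codimensions if `X` satisfies the
Hodge index theorem. -/
theorem result {k : Type u} [Field k] {𝒱 : VarClass k} {ops : CycleOps 𝒱}
    (W : WeilCohomology.{u, v} ops) (P : Polarized 𝒱) (hP : IsLefschetz W P)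
    (hX : IsFujikiFourfold W P.X)
    (h : ∀ e, IsIdempotentInDegreeTwo W P.X e → DetectedByDivisor W P e) :
    HodgeIn W P 2 ∧ (HodgeIn W P 0 → HodgeIn W P 1 → HodgeStandard W P.X P.D) := by
  have h2 := hodge_two W P hP hX h
  refine ⟨h2, ?_⟩
  intro h0 h1 n hn
  rw [hX.dim_eq] at hn
  have hn' : n ≤ 2 := by omega
  interval_cases n
  · exact h0
  · exact h1
  · exact h2

end Pool.Agent.Results.MP_ffcd14_ag.HyperkahlerFourfolds
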