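import Pool.Agent.H846.HK.Fuj

/-!
# Positivity of the traces of squares from the detection by divisors on specializations
-/

open CategoryTheory AlgebraicGeometry Finset

universe u v

namespace Pool.Agent.H846.HK

open Pool.Agent.H914 Pool.Agent.H914.VarClass Pool.Agent.H914.VarClass.Obj
  Pool.Agent.H914.WeilCohomology Pool.Agent.H281R3.HT Pool.Agent.W552 Pool.Agent.W539.Ker
  Pool.Agent.R911.Iso Pool.Agent.H447 Pool.Agent.H846.Det

variable {k : Type u} [Field k] {𝒱 : VarClass k} {ops : CycleOps 𝒱}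
  {W : WeilCohomology.{u, v} ops} {X : 𝒱.Obj} {D : X.Cycles} {f : Module.End W.K (W.H X)}

/-- The form is nonnegative on the algebraic classes of codimension `l` if the standard conjecture
of Hodge type holds in the codimensions at most `l`. -/
theorem bf_nonneg_le {Z : 𝒱.Obj} {E : Z.Cycles} {g : Module.End W.K (W.H Z)} (F : Fr W Z E g)
    {l : ℕ} (hH : ∀ n ≤ l, 2 * n ≤ Z.dim → ∀ z, Primitive W Z E n z → ¬ NumZero ops Z n z →
      0 < pairing ops Z E n z z) {c : W.H Z} (hc : c ∈ algClasses W Z l) :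
    ∃ q : ℚ, 0 ≤ q ∧ bf W Z E g c c = q := by
  set L := LinearMap.mulLeft W.K (W.cl Z E) with hL
  obtain ⟨u, hu, hs⟩ := (ap_alg F).decomp (mulLeft_isHom F.hD) W_hbd hc
  rw [← hL] at hu hs
  have key : ∀ b ∈ range (l + 1), (L ^ b) (u b) = 0 ∨ ∃ z, Primitive W Z E (l - b) z ∧
      u b = W.cl Z z ∧ 2 * (l - b) ≤ Z.dim ∧ b ≤ Z.dim - 2 * (l - b) := by
    intro b hb
    rw [Finset.mem_range] at hb
    obtain ⟨h1, h2, h3⟩ := hu b (by omega)
    by_cases h0 : (L ^ b) (u b) = 0
    · exact Or.inl h0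
    right
    have hv0 : u b ≠ 0 := by rintro h; apply h0; rw [h, map_zero]
    have h4 := h2 hv0
    have h5 : b ≤ Z.dim - 2 * (l - b) := by
      by_contra h6
      exact h0 (L_pow_gt (n := Z.dim) (i := 2 * (l - b)) h3 (by omega))
    obtain ⟨z, hz, hz'⟩ := h1
    refine ⟨z, ⟨hz, ?_⟩, hz'.symm, h4, h5⟩
    rw [cl_divPow, hz']; exact h3
  have hcross : ∀ b ∈ range (l + 1), ∀ b' ∈ range (l + 1), b ≠ b' →
      bf W Z E g ((L ^ b) (u b)) ((L ^ b') (u b')) = 0 := by
    intro b hb b' hb' hne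
    rcases key b hb with h0 | ⟨z, hz, hvz, h1, h2⟩
    · rw [h0, map_zero, LinearMap.zero_apply]
    rcases key b' hb' with h0 | ⟨z', hz', hvz', h1', h2'⟩
    · rw [h0, map_zero]
    rw [hvz, hvz']
    rw [Finset.mem_range] at hb hb'
    exact bf_cross F h1 h1' (by omega) hz hz' (by omega) h2'
  have hdiag : ∀ b ∈ range (l + 1), ∃ q : ℚ, 0 ≤ q ∧
      bf W Z E g ((L ^ b) (u b)) ((L ^ b) (u b)) = q := by
    intro b hb
    rcases key b hb with h0 | ⟨z, hz, hvz, h1, h2⟩
    · exact ⟨0, le_rfl, by rw [h0]; simp⟩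
    · refine ⟨_, ?_, by rw [hvz]; exact bf_same F h1 hz hz h2⟩
      apply mul_nonneg (by positivity)
      by_cases hn : NumZero ops Z (l - b) z
      · rw [pairing_of_numZero F h1 hz.1 hn]
      · exact (hH _ (Nat.sub_le _ _) h1 z hz hn).le
  choose! q hq hq' using hdiag
  refine ⟨∑ b ∈ range (l + 1), q b, Finset.sum_nonneg hq, ?_⟩
  rw [hs, map_sum, Rat.cast_sum]
  apply Finset.sum_congr rfl
  intro b hb
  rw [map_sum, LinearMap.sum_apply, Finset.sum_eq_single b, hq' b hb]
  · intro b' hb' hne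
    exact hcross b' hb' b hb hne
  · intro h; exact absurd hb h

/-- The inequality of Cauchy and Schwarz on the algebraic classes of a fixed codimension. -/
theorem cs_deg (G : Gd W X D f) {l : ℕ}
    (hnn : ∀ c ∈ algClasses W X l, ∃ q : ℚ, 0 ≤ q ∧ bf W X D f c c = q) {x y : W.H X}
    (hx : x ∈ algClasses W X l) (hy : y ∈ algClasses W X l) (h0 : bf W X D f x x = 0) :
    bf W X D f x y = 0 := by
  obtain ⟨b, hb⟩ := G.fr.bf_rat (AS.of hx) (AS.of hy)
  obtain ⟨c, hc0, hc⟩ := hnn y hy
  by_contra hne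
  have hb0 : b ≠ 0 := by
    rintro rfl
    apply hne
    rw [hb, Rat.cast_zero]
  have key : ∀ t : ℚ, 0 ≤ c + 2 * t * b := by
    intro t
    obtain ⟨q, hq0, hq⟩ := hnn (y + (t : W.K) • x)
      (AS.alg ((AS.of hy).add ((AS.of hx).smul t))
        (add_mem (alg_gr hy) (Submodule.smul_mem _ _ (alg_gr hx))))
    have h1 : bf W X D f (y + (t : W.K) • x) (y + (t : W.K) • x) = ((c + 2 * t * b : ℚ) : W.K) := by
      rw [map_add (bf W X D f), LinearMap.add_apply, map_add, map_add, map_smul (bf W X D f),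
        LinearMap.smul_apply, LinearMap.smul_apply, map_smul, map_smul, h0, hc,
        bf_symm G (x := y) (AS.of hx), hb]
      simp only [smul_eq_mul]
      push_cast
      ring
    rw [hq] at h1
    have h2 : q = c + 2 * t * b := by exact_mod_cast h1
    rw [← h2]
    exact hq0
  have h1 := key (-(c + 1) / (2 * b))
  have h2 : 2 * (-(c + 1) / (2 * b)) * b = -(c + 1) := by
    field_simp
  rw [h2] at h1
  linarith

/-- Polynomials in an operator preserving the degree. -/
lemma ev_mem {B : Module.End W.K (W.H X)} {i : ℕ} (hB : ∀ x ∈ W.gr X i, B x ∈ W.gr X i)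
    (h : Polynomial ℚ) {x : W.H X} (hx : x ∈ W.gr X i) : Det.ev B h x ∈ W.gr X i := by
  induction h using Polynomial.induction_on' with
  | add p q hp hq => rw [map_add]; exact add_mem hp hq
  | monomial n c =>
    have h1 : ∀ n : ℕ, (B ^ n) x ∈ W.gr X i := by
      intro n
      induction n with
      | zero => exact hx
      | succ n ih => rw [pow_succ', Module.End.mul_apply]; exact hB _ ih
    rw [← mul_one c, ← smul_eq_mul, ← Polynomial.smul_monomial, ev_smul,
      ← Polynomial.X_pow_eq_monomial, map_pow, Det.ev_X]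
    exact Submodule.smul_mem _ _ (h1 n)

/-- Polynomials in an operator on its kernel. -/
lemma ev_ker {B : Module.End W.K (W.H X)} (h : Polynomial ℚ) {x : W.H X} (hx : B x = 0) :
    Det.ev B h x = ((h.coeff 0 : ℚ) : W.K) • x := by
  induction h using Polynomial.induction_on' with
  | add p q hp hq =>
    rw [map_add, LinearMap.add_apply, hp, hq, Polynomial.coeff_add, Rat.cast_add, add_smul]
  | monomial n c =>
    rw [← mul_one c, ← smul_eq_mul, ← Polynomial.smul_monomial, ev_smul,
      ← Polynomial.X_pow_eq_monomial, map_pow, Det.ev_X, LinearMap.smul_apply]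
    rcases Nat.eq_zero_or_pos n with rfl | hn
    · simp
    · obtain ⟨m, rfl⟩ : ∃ m, n = m + 1 := ⟨n - 1, by omega⟩
      rw [pow_succ, Module.End.mul_apply, hx, map_zero, Polynomial.coeff_smul,
        Polynomial.X_pow_eq_monomial, Polynomial.coeff_monomial, if_neg (by omega)]
      simp

/-- **The functional attached to a divisor.** -/
theorem divisor_functional (G : Gd W X D f)
    (hnn : ∀ c ∈ algClasses W X 1, ∃ q : ℚ, 0 ≤ q ∧ bf W X D f c c = q)
    {B : Module.End W.K (W.H X)} (hB : AOp W X X B) (hadj : Adj W D f D f B B)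
    (hdeg : ∀ x, B x ∈ W.gr X 2) {w : W.H X} (hw : w ∈ algClasses W X 1) :
    ∃ φ : Polynomial ℚ →ₗ[ℚ] ℚ, PosFun φ ∧
      ∀ h, ((φ h : ℚ) : W.K) = bf W X D f (Det.ev (B * B) h w) w := by
  have hBB : AOp W X X (B * B) := hB.mul hB
  have hself : Adj W D f D f (B * B) (B * B) := by
    intro x y
    rw [Module.End.mul_apply, hadj, hadj, Module.End.mul_apply]
  have hw2 : w ∈ W.gr X 2 := alg_gr hw
  have hrat : ∀ h, ∃ q : ℚ, bf W X D f (Det.ev (B * B) h w) w = q :=
    fun h => G.fr.bf_rat ((aop_ev hBB h).apply (AS.of hw)) (AS.of hw)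
  choose φ hφ using hrat
  let ψ : Polynomial ℚ →ₗ[ℚ] ℚ :=
    { toFun := φ
      map_add' := by
        intro p q
        apply Rat.cast_injective (α := W.K)
        rw [Rat.cast_add, ← hφ, ← hφ, ← hφ, map_add, LinearMap.add_apply, map_add,
          LinearMap.add_apply]
      map_smul' := by
        intro c p
        apply Rat.cast_injective (α := W.K)
        rw [RingHom.id_apply, smul_eq_mul, Rat.cast_mul, ← hφ, ← hφ, ev_smul,
          LinearMap.smul_apply, map_smul, LinearMap.smul_apply, smul_eq_mul] }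
  have hψ : ∀ h, ψ h = φ h := fun h => rfl
  have hdeg' : ∀ x ∈ W.gr X 2, (B * B) x ∈ W.gr X 2 := fun x _ => hdeg _
  refine ⟨ψ, ⟨?_, ?_⟩, fun h => (hφ h).symm⟩
  · intro h
    obtain ⟨q, hq0, hq⟩ := hnn (Det.ev (B * B) h w)
      (AS.alg ((aop_ev hBB h).apply (AS.of hw)) (ev_mem hdeg' h hw2))
    have h2 : bf W X D f (Det.ev (B * B) (h * h) w) w = q := by
      rw [map_mul, Module.End.mul_apply, adj_ev hself h, ← hq]
    rw [hφ] at h2
    rw [hψ, show φ (h * h) = q by exact_mod_cast h2]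
    exact hq0
  · intro h
    obtain ⟨q, hq0, hq⟩ := hnn (B (Det.ev (B * B) h w))
      (AS.alg (hB.apply ((aop_ev hBB h).apply (AS.of hw))) (hdeg _))
    have h2 : bf W X D f (Det.ev (B * B) (Polynomial.X * (h * h)) w) w = q := by
      rw [show Polynomial.X * (h * h) = h * (Polynomial.X * h) by ring, map_mul, map_mul, Det.ev_X,
        Module.End.mul_apply, Module.End.mul_apply, adj_ev hself h, Module.End.mul_apply, hadj,
        ← hq]
    rw [hφ] at h2
    rw [hψ, show φ (Polynomial.X * (h * h)) = q by exact_mod_cast h2]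
    exact hq0

end Pool.Agent.H846.HK
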