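import Pool.Agent.H846.HK.Final

/-!
# The standard conjecture of Hodge type for fourfolds of hyperkähler type
-/

open CategoryTheory AlgebraicGeometry Finset

universe u v

namespace Pool.Agent.H846.HK

/-- A positive definite rational matrix is invertible. -/
lemma posdef_inv {m : ℕ} {M : Matrix (Fin m) (Fin m) ℚ}
    (h : ∀ a : Fin m → ℚ, a ≠ 0 → 0 < ∑ i, ∑ j, a i * a j * M i j) : IsUnit M.det := by
  rw [isUnit_iff_ne_zero]
  intro h0
  obtain ⟨v, hv, hv0⟩ := Matrix.exists_mulVec_eq_zero_iff.2 h0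
  have h1 := h v hv
  have h2 : ∑ i, ∑ j, v i * v j * M i j = ∑ i, v i * (M.mulVec v) i := by
    apply Finset.sum_congr rfl
    intro i _
    rw [Matrix.mulVec, dotProduct, Finset.mul_sum]
    apply Finset.sum_congr rfl
    intro j _
    ring
  rw [h2, hv0] at h1
  simp at h1

/-- A solution of a rational linear system with invertible matrix is rational. -/
lemma rational_solution {K : Type*} [Field K] [CharZero K] {m : ℕ}
    {M : Matrix (Fin m) (Fin m) ℚ} (hM : IsUnit M.det) {a : Fin m → K} {b : Fin m → ℚ}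
    (h : ∀ i, ∑ j, (M i j : K) * a j = b i) : ∃ a' : Fin m → ℚ, ∀ j, a j = a' j := by
  refine ⟨M⁻¹.mulVec b, ?_⟩
  intro j
  have h1 : ∀ i l, ∑ j, ((M⁻¹ i j : ℚ) : K) * ((M j l : ℚ) : K) =
      if i = l then 1 else 0 := by
    intro i l
    have h2 := congrFun (congrFun (Matrix.nonsing_inv_mul M hM) i) l
    rw [Matrix.mul_apply, Matrix.one_apply] at h2
    have h3 := congrArg (fun q : ℚ => (q : K)) h2
    beta_reduce at h3
    push_cast at h3
    rw [h3]
    split <;> simp
  rw [Matrix.mulVec, dotProduct]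
  push_cast
  have h2 : ∑ i, ((M⁻¹ j i : ℚ) : K) * (b i : K) =
      ∑ i, ((M⁻¹ j i : ℚ) : K) * ∑ l, (M i l : K) * a l :=
    Finset.sum_congr rfl (fun i _ => by rw [h i])
  rw [h2]
  simp_rw [Finset.mul_sum]
  rw [Finset.sum_comm]
  simp_rw [← mul_assoc, ← Finset.sum_mul]
  simp_rw [h1]
  simp

open Pool.Agent.H914 Pool.Agent.H914.VarClass Pool.Agent.H914.VarClass.Obj
  Pool.Agent.H914.WeilCohomology Pool.Agent.H281R3.HT Pool.Agent.W552 Pool.Agent.W539.Ker
  Pool.Agent.R911.Iso Pool.Agent.H447 Pool.Agent.H846.Det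

variable {k : Type u} [Field k] {𝒱 : VarClass k} {ops : CycleOps 𝒱}
  {W : WeilCohomology.{u, v} ops}

/-- Strictness: nonnegativity on all primitive cycles of middle codimension implies positivity on
those not numerically equivalent to zero. -/
theorem strict_of_nonneg {P : Polarized 𝒱} {f : Module.End W.K (W.H P.X)} (G : Gd W P.X P.D f)
    {n : ℕ} (hd : P.X.dim = 2 * n)
    (hnn : ∀ z, Primitive W P.X P.D n z → 0 ≤ pairing ops P.X P.D n z z) : HodgeIn W P n := by
  intro z hz hnz
  have hD := G.fr.hD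
  have hn : 2 * n ≤ P.X.dim := by omega
  refine lt_of_le_of_ne (hnn z hz) ?_
  intro h0
  apply hnz
  have key : ∀ w, Primitive W P.X P.D n w → pairing ops P.X P.D n z w = 0 := by
    intro w hw
    by_contra hb
    set b := pairing ops P.X P.D n z w with hbdef
    set c := pairing ops P.X P.D n w w with hc
    let Z : PM W P.X P.D n := ⟨z, hz⟩
    let V : PM W P.X P.D n := ⟨w, hw⟩
    have hkey : ∀ t : ℚ, 0 ≤ c + 2 * t * b := by
      intro t
      have h2 := hnn _ (V + t • Z).2
      rw [← BP_apply hD hn] at h2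
      rw [map_add (BP W hD n hn), LinearMap.add_apply, map_add, map_add, map_smul (BP W hD n hn),
        LinearMap.smul_apply, LinearMap.smul_apply, map_smul, map_smul,
        BP_symm hD hn V Z] at h2
      have e1 : BP W hD n hn V V = c := rfl
      have e2 : BP W hD n hn Z V = b := rfl
      have e3 : BP W hD n hn Z Z = 0 := h0.symm
      rw [e1, e2, e3] at h2
      simp only [smul_eq_mul, mul_zero, add_zero] at h2
      linarith
    have h3 := hkey (-(c + 1) / (2 * b))
    have h4 : 2 * (-(c + 1) / (2 * b)) * b = -(c + 1) := by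
      field_simp
    rw [h4] at h3
    linarith
  intro w hw
  rw [show P.X.dim - n = n by omega] at hw
  have hzw := ops.mul_mem hz.1 hw
  rw [show n + n = P.X.dim by omega] at hzw
  have h2 := W.tr_cl hzw
  rw [W.cl_mul] at h2
  obtain ⟨u, hu, hs⟩ := (ap_alg G.fr).decomp (mulLeft_isHom hD) W_hbd
    (c := W.cl P.X w) (l := n) ⟨w, hw, rfl⟩
  set L := LinearMap.mulLeft W.K (W.cl P.X P.D) with hL
  have hLz : L (W.cl P.X z) = 0 := by
    have h3 := hz.2
    rw [cl_divPow, show P.X.dim - 2 * n + 1 = 1 by omega, pow_one] at h3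
    exact h3
  have h5 : W.tr P.X (W.cl P.X z * W.cl P.X w) = 0 := by
    rw [hs, Finset.mul_sum, map_sum]
    apply Finset.sum_eq_zero
    intro b hb
    rw [Finset.mem_range] at hb
    rcases Nat.eq_zero_or_pos b with rfl | hb0
    · obtain ⟨⟨w', hw', hww⟩, -, h3⟩ := hu 0 (by omega)
      rw [Nat.sub_zero] at h3 hw'
      have hpw : Primitive W P.X P.D n w' := ⟨hw', by rw [cl_divPow, hww]; exact h3⟩
      have h6 := key w' hpw
      have h7 := pairing_cast (W := W) hD hn hz.1 hw'
      rw [h6, Rat.cast_zero, show P.X.dim - 2 * n = 0 by omega, pow_zero,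
        Module.End.one_apply] at h7
      rw [pow_zero, Module.End.one_apply, ← hww]
      rcases mul_eq_zero.1 h7.symm with h8 | h8
      · exact absurd h8 (pow_ne_zero _ (by norm_num))
      · exact h8
    · rw [← L_pow_self hD]
      obtain ⟨b', rfl⟩ : ∃ b', b = b' + 1 := ⟨b - 1, by omega⟩
      rw [← hL, pow_succ, Module.End.mul_apply, hLz, map_zero, zero_mul, map_zero]
  rw [h5] at h2
  exact_mod_cast h2.symm

/-- **The standard conjecture of Hodge type in codimension two for fourfolds of hyperkähler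
type.** -/
theorem hodge_two (W : WeilCohomology.{u, v} ops) (P : Polarized 𝒱) (hP : IsLefschetz W P)
    (hX : IsFujikiFourfold W P.X)
    (hdet : ∀ e, IsIdempotentInDegreeTwo W P.X e → DetectedByDivisor W P e) :
    HodgeIn W P 2 := by
  obtain ⟨f, G⟩ := exists_gd hP.isCyc hP.hard hP.std
  have hd := hX.dim_eq
  have hD := G.fr.hD
  apply strict_of_nonneg G (by omega)
  intro z hz
  have hpc := pairing_cast (W := W) (n := 2) hD (by omega) hz.1 hz.1
  rw [show P.X.dim - 2 * 2 = 0 by omega, pow_zero, Module.End.one_apply] at hpc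
  have hpc' : ((pairing ops P.X P.D 2 z z : ℚ) : W.K) = W.tr P.X (W.cl P.X z * W.cl P.X z) := by
    rw [hpc]
    ring
  by_cases h1 : (1 : W.H P.X) = 0
  · have h2 : W.cl P.X z = 0 := by
      rw [← one_mul (W.cl P.X z), h1, zero_mul]
    rw [h2, zero_mul, map_zero] at hpc'
    have h3 : pairing ops P.X P.D 2 z z = 0 := by exact_mod_cast hpc'
    rw [h3]
  have hLz : W.cl P.X P.D * W.cl P.X z = 0 := by
    have h3 := hz.2
    rw [cl_divPow, show P.X.dim - 2 * 2 + 1 = 1 by omega, pow_one, LinearMap.mulLeft_apply] at h3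
    exact h3
  obtain ⟨q, c, hF⟩ := hX.rel
  have hF := Fujiki.restrict hF
  obtain ⟨m, r, hC, hG⟩ := hX.gen
  obtain ⟨n, x, y, a, hza⟩ := exists_sum (W.gr P.X 2) (fun j => W.cl P.X (r j)) (hG z hz.1)
  simp only [classOf] at hza
  have horth : ∀ i, ∀ x ∈ W.gr P.X 2, ∀ y ∈ W.gr P.X 2, W.tr P.X (x * y * W.cl P.X (r i)) = 0 :=
    fun i x hx y hy => hC.orth i x y hx hy
  have horth' : ∀ i, ∀ x ∈ W.gr P.X 2, ∀ y ∈ W.gr P.X 2,
      W.tr P.X (W.cl P.X (r i) * (x * y)) = 0 := by
    intro i x hx y hy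
    rw [even_comm (W.cl_mem (hC.isCyc i))]
    exact horth i x hx y hy
  have hint : ∀ {z w : P.X.Cycles}, P.X.IsCyc 2 z → P.X.IsCyc 2 w →
      W.tr P.X (W.cl P.X z * W.cl P.X w) = (interNum ops P.X z w : W.K) := by
    intro z w hz hw
    have h3 := ops.mul_mem hz hw
    rw [show 2 + 2 = P.X.dim by omega] at h3
    rw [← W.cl_mul, W.tr_cl h3]
    rfl
  -- the coefficients are rational
  obtain ⟨a', ha'⟩ := rational_solution (M := fun i j => interNum ops P.X (r i) (r j))
    (posdef_inv hC.pos) (a := a) (b := fun i => interNum ops P.X (r i) z) (by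
      intro i
      rw [← hint (hC.isCyc i) hz.1, hza, mul_add, map_add, Finset.mul_sum, map_sum,
        Finset.sum_eq_zero (fun j _ => horth' i _ (x j).2 _ (y j).2), zero_add, Finset.mul_sum,
        map_sum]
      apply Finset.sum_congr rfl
      intro j _
      rw [mul_smul_comm, map_smul, smul_eq_mul, hint (hC.isCyc i) (hC.isCyc j), mul_comm])
  set s := ∑ i, (x i : W.H P.X) * y i with hs
  set w : P.X.Cycles := ∑ j, a' j • r j with hw
  have hwc : P.X.IsCyc 2 w := by
    have h3 : ∀ T : Finset (Fin m), P.X.IsCyc 2 (∑ j ∈ T, a' j • r j) := by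
      intro T
      induction T using Finset.induction_on with
      | empty => rw [Finset.sum_empty]; exact SmVar.IsCyc.zero _ _
      | insert j T hj ih =>
        rw [Finset.sum_insert hj]
        exact SmVar.IsCyc.add (SmVar.IsCyc.smul _ (hC.isCyc j)) ih
    exact h3 _
  have hclw : W.cl P.X w = ∑ j, a j • W.cl P.X (r j) := by
    rw [hw, map_sum]
    apply Finset.sum_congr rfl
    intro j _
    rw [W.cl_smul, ha' j]
  have hz' : P.X.IsCyc 2 (z - w) := by
    have h3 := SmVar.IsCyc.add hz.1 (SmVar.IsCyc.smul (-1) hwc)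
    rwa [neg_one_smul, ← sub_eq_add_neg] at h3
  have hclz' : W.cl P.X (z - w) = s := by
    rw [map_sub, hza, hclw, add_sub_cancel_right]
  have hDr : ∀ j, W.cl P.X P.D * W.cl P.X (r j) = 0 := by
    intro j
    apply eq_zero_of_tr (j := 2) (W.mul_mem (W.cl_mem hD) (W.cl_mem (hC.isCyc j))) (by omega)
    intro b hb
    rw [← mul_assoc]
    exact horth j b hb _ (W.cl_mem hD)
  have hDs : W.cl P.X P.D * s = 0 := by
    have h3 : s = W.cl P.X z - ∑ j, a j • W.cl P.X (r j) := by rw [hza, add_sub_cancel_right]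
    rw [h3, mul_sub, hLz, Finset.mul_sum, zero_sub, neg_eq_zero]
    apply Finset.sum_eq_zero
    intro j _
    rw [mul_smul_comm, hDr, smul_zero]
  obtain ⟨ρ, hρ0, hρ⟩ := sym_nonneg G hd h1 hdet hF x y hz' hclz' hDs
  rw [hclz'] at hρ
  have hsw : W.tr P.X (W.cl P.X w * s) = 0 := by
    rw [hclw, Finset.sum_mul, map_sum]
    apply Finset.sum_eq_zero
    intro j _
    rw [smul_mul_assoc, map_smul, hs, Finset.mul_sum, map_sum,
      Finset.sum_eq_zero (fun i _ => horth' j _ (x i).2 _ (y i).2), smul_zero]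
  have hws : W.tr P.X (s * W.cl P.X w) = 0 := by
    rw [← even_comm (W.cl_mem hwc)]
    exact hsw
  have hww : W.tr P.X (W.cl P.X w * W.cl P.X w) =
      ((∑ i, ∑ j, a' i * a' j * interNum ops P.X (r i) (r j) : ℚ) : W.K) := by
    rw [hclw, Finset.sum_mul, map_sum, Rat.cast_sum]
    apply Finset.sum_congr rfl
    intro i _
    rw [Finset.mul_sum, map_sum, Rat.cast_sum]
    apply Finset.sum_congr rfl
    intro j _
    rw [smul_mul_assoc, mul_smul_comm, map_smul, map_smul, hint (hC.isCyc i) (hC.isCyc j), ha',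
      ha', smul_eq_mul, smul_eq_mul]
    push_cast
    ring
  have hzz : W.cl P.X z = s + W.cl P.X w := by rw [hza, hclw]
  have hfin : ((pairing ops P.X P.D 2 z z : ℚ) : W.K) =
      ((ρ + ∑ i, ∑ j, a' i * a' j * interNum ops P.X (r i) (r j) : ℚ) : W.K) := by
    rw [hpc', hzz, add_mul, mul_add, mul_add, map_add, map_add, map_add, hρ, hsw, hws, hww]
    push_cast
    ring
  have hfin' : pairing ops P.X P.D 2 z z =
      ρ + ∑ i, ∑ j, a' i * a' j * interNum ops P.X (r i) (r j) := by exact_mod_cast hfin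
  rw [hfin']
  apply add_nonneg hρ0
  by_cases ha0 : a' = 0
  · rw [ha0]
    simp
  · exact (hC.pos a' ha0).le

end Pool.Agent.H846.HK
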